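import Pool.Agent.Work.MP_f2148a_nt.M56.N2.Defs

set_option autoImplicit false

/-!
# Case A: `0 ≤ Y ≤ A`, the window is `a = A = 4.51 l / b`, cost `t = A - Y` (helper29)
-/

namespace Pool.Agent.Work.MP_f2148a_nt.M56.N2

theorem ja2 (A v : ℝ) (h1 : 0.88 ≤ A) (h2 : A ≤ 0.96) (hv0 : 0 ≤ v) (hv1 : v ≤ 1) :
    (4 * A * (1 + v) + v * (3.04 + A) * (4.51 - 4 * A)) * (2 * v - v ^ 2 - 1.16 + A + 0.0027)
      + 0.0002 ≤ 9.02 * A * v + (0.96 - A) * (1.836 * A + 0.148) := by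
  have a1 := sub_nonneg.2 h1
  have a2 := sub_nonneg.2 h2
  have a12 := mul_nonneg a1 a2
  nlinarith [mul_nonneg hv0 (sq_nonneg (v - (0.862 - 0.82 * (A - 0.88)))),
    mul_nonneg (mul_nonneg hv0 (sq_nonneg (v - (0.862 - 0.82 * (A - 0.88))))) a1,
    mul_nonneg (mul_nonneg hv0 (sq_nonneg (v - (0.862 - 0.82 * (A - 0.88))))) a2,
    mul_nonneg (mul_nonneg hv0 (sq_nonneg (v - (0.862 - 0.82 * (A - 0.88))))) a12,
    sq_nonneg (v - (0.862 - 0.82 * (A - 0.88))), mul_nonneg a1 (sq_nonneg (v - (0.862 - 0.82 * (A - 0.88)))),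
    mul_nonneg a2 (sq_nonneg (v - (0.862 - 0.82 * (A - 0.88)))), mul_nonneg a12 (sq_nonneg (v - (0.862 - 0.82 * (A - 0.88)))),
    a12, mul_nonneg a12 hv0, mul_nonneg a1 hv0, mul_nonneg a2 hv0, mul_nonneg a12 (mul_nonneg hv0 a1),
    mul_nonneg a12 a1, mul_nonneg a12 (mul_nonneg hv0 hv0)]

theorem ja1a (A v : ℝ) (h1 : 0.96 ≤ A) (h2 : A ≤ 1.03) (hv0 : 0 ≤ v) (hv1 : v ≤ 1) :
    (4 * A * (1 + v) + v * (3.04 + A) * (4.51 - 4 * A)) * (2 * v - v ^ 2 - 1.16 + A + 0.0027)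
      + 0.0002 ≤ 9.02 * A * v := by
  have a1 := sub_nonneg.2 h1
  have a2 := sub_nonneg.2 h2
  have a12 := mul_nonneg a1 a2
  nlinarith [mul_nonneg hv0 (sq_nonneg (v - (0.795 - 1.2 * (A - 0.96)))),
    mul_nonneg (mul_nonneg hv0 (sq_nonneg (v - (0.795 - 1.2 * (A - 0.96))))) a1,
    mul_nonneg (mul_nonneg hv0 (sq_nonneg (v - (0.795 - 1.2 * (A - 0.96))))) a2,
    mul_nonneg (mul_nonneg hv0 (sq_nonneg (v - (0.795 - 1.2 * (A - 0.96))))) a12,
    sq_nonneg (v - (0.795 - 1.2 * (A - 0.96))), mul_nonneg a1 (sq_nonneg (v - (0.795 - 1.2 * (A - 0.96)))),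
    mul_nonneg a2 (sq_nonneg (v - (0.795 - 1.2 * (A - 0.96)))), mul_nonneg a12 (sq_nonneg (v - (0.795 - 1.2 * (A - 0.96)))),
    a12, mul_nonneg a12 hv0, mul_nonneg a1 hv0, mul_nonneg a2 hv0, mul_nonneg a12 (mul_nonneg hv0 a1),
    mul_nonneg a12 a1, mul_nonneg a12 (mul_nonneg hv0 hv0)]

theorem ja1b (A v : ℝ) (h1 : 1.03 ≤ A) (h2 : A ≤ 1.1275) (hv0 : 0 ≤ v) (hv1 : v ≤ 1) :
    (4 * A * (1 + v) + v * (3.04 + A) * (4.51 - 4 * A)) * (2 * v - v ^ 2 - 1.16 + A + 0.0027)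
      + 0.0002 ≤ 9.02 * A * v := by
  have a1 := sub_nonneg.2 h1
  have a2 := sub_nonneg.2 h2
  have a12 := mul_nonneg a1 a2
  nlinarith [mul_nonneg hv0 (sq_nonneg (v - (0.705 - 1.9 * (A - 1.03)))),
    mul_nonneg (mul_nonneg hv0 (sq_nonneg (v - (0.705 - 1.9 * (A - 1.03))))) a1,
    mul_nonneg (mul_nonneg hv0 (sq_nonneg (v - (0.705 - 1.9 * (A - 1.03))))) a2,
    mul_nonneg (mul_nonneg hv0 (sq_nonneg (v - (0.705 - 1.9 * (A - 1.03))))) a12,
    sq_nonneg (v - (0.705 - 1.9 * (A - 1.03))), mul_nonneg a1 (sq_nonneg (v - (0.705 - 1.9 * (A - 1.03)))),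
    mul_nonneg a2 (sq_nonneg (v - (0.705 - 1.9 * (A - 1.03)))), mul_nonneg a12 (sq_nonneg (v - (0.705 - 1.9 * (A - 1.03)))),
    a12, mul_nonneg a12 hv0, mul_nonneg a1 hv0, mul_nonneg a2 hv0, mul_nonneg a12 (mul_nonneg hv0 a1),
    mul_nonneg a12 a1, mul_nonneg a12 (mul_nonneg hv0 hv0)]

/-- the polynomial inequality of case A, with the gain `e ≥ (0.96 - A) / 1.74` -/
theorem ja (A v e : ℝ) (h1 : 0.88 ≤ A) (h2 : A ≤ 1.1275) (hv0 : 0 ≤ v) (hv1 : v ≤ 1)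
    (he0 : 0 ≤ e) (he : 0.96 - A ≤ 1.74 * e) :
    (4 * A * (1 + v) + v * (3.04 + A) * (4.51 - 4 * A)) * (2 * v - v ^ 2 - 1.16 + A + 0.0027)
      + 0.0002 ≤ 9.02 * A * v + e * (3.196 * A + 0.258) := by
  rcases le_total A 0.96 with h | h
  · have := ja2 A v h1 h hv0 hv1
    have h3 : (0.96 - A) * (1.836 * A + 0.148) ≤ e * (3.196 * A + 0.258) := by
      have h4 : (0.96 - A) * (1.836 * A + 0.148) ≤ 1.74 * e * (1.836 * A + 0.148) :=
        mul_le_mul_of_nonneg_right he (by linarith)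
      nlinarith [mul_nonneg he0 (by linarith : (0:ℝ) ≤ A)]
    linarith
  · have h3 : 0 ≤ e * (3.196 * A + 0.258) := mul_nonneg he0 (by linarith)
    rcases le_total A 1.03 with h' | h'
    · have := ja1a A v h h' hv0 hv1
      linarith
    · have := ja1b A v h' h2 hv0 hv1
      linarith

theorem caseA (D l u A : ℝ) (hc : Cell D l u) (hA : A * (4 * l + 1 + D) = 451 / 100 * l)
    (hY0 : 0 ≤ 3 * (1 + D) - u) (hYA : 3 * (1 + D) - u ≤ A) :
    E2 (451 / 100 * l) (u - 2 + A) l (3 - D - (1 / 6 + 3 / 10000) * u - A) := by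
  intro v hv0 hv1
  obtain ⟨h0, h1, h2, h3, h4, hl⟩ := hc
  have hD1 : D ≤ 1 + 6 / 100000 := by linarith
  have hg : 0 < 1 + D := by linarith
  have hb : 0 < 4 * l + 1 + D := by linarith
  have hApos : 0 < A := by
    by_contra hcon
    push Not at hcon
    have : A * (4 * l + 1 + D) ≤ 0 := mul_nonpos_of_nonpos_of_nonneg hcon hb.le
    linarith
  have hk : l * (4.51 - 4 * A) = A * (1 + D) := by nlinarith
  have hkpos : 0 < 4.51 - 4 * A := by
    by_contra hcon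
    push Not at hcon
    have : l * (4.51 - 4 * A) ≤ 0 := mul_nonpos_of_nonneg_of_nonpos hl.le hcon
    have : 0 < A * (1 + D) := mul_pos hApos hg
    linarith
  have hA2 : A ≤ 1.1275 := by linarith
  have hA1 : 0.88 ≤ A := by
    by_contra hcon
    push Not at hcon
    have e1 : 5.95 * (1 + D) - 2.65 * A - 0.0002 ≤ 4 * l := by linarith
    have e2 : (4.51 - 4 * A) * (5.95 * (1 + D) - 2.65 * A - 0.0002) ≤ (4.51 - 4 * A) * (4 * l) :=
      mul_le_mul_of_nonneg_left e1 hkpos.le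
    have e3 : 0 < 5.95 * (1 + D) - 2.65 * A - 0.0002 := by linarith
    have e4 : 0.99 * (5.95 * (1 + D) - 2.65 * A - 0.0002) ≤
        (4.51 - 4 * A) * (5.95 * (1 + D) - 2.65 * A - 0.0002) :=
      mul_le_mul_of_nonneg_right (by linarith) e3.le
    have e5 : A * (1 + D) ≤ 0.88 * (1 + D) := mul_le_mul_of_nonneg_right hcon.le hg.le
    nlinarith
  -- the variables of the reduction
  obtain ⟨e, he⟩ : ∃ e : ℝ, e = 1 - D + 1 / 10000 := ⟨_, rfl⟩
  have hD : D = 1 - e + 1 / 10000 := by linarith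
  have he0 : 0 ≤ e := by linarith
  have he1 : e ≤ 1.0002 := by linarith
  have hu : u ≤ 5.0403 - 1.26 * e := by rw [hD] at h1; linarith
  obtain ⟨W, hW⟩ : ∃ W : ℝ, W = 2 * v - v ^ 2 - (3 - D - (1 / 6 + 3 / 10000) * u - A) + 1 / 1000 :=
    ⟨_, rfl⟩
  rw [← hW]
  have hth : 1 ≤ u - 2 + A + 3 / 1000 := by linarith
  have hfac : 0 ≤ 2 * l + (2 * l + (u - 2 + A)) * v :=
    add_nonneg (by linarith) (mul_nonneg (by linarith) hv0.le)
  rcases le_or_gt W 0 with hW0 | hW0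
  · have s1 : (2 * l + (2 * l + (u - 2 + A)) * v) * W ≤ 0 := mul_nonpos_of_nonneg_of_nonpos hfac hW0
    have s2 : 0 ≤ 451 / 100 * l * v := by positivity
    linarith
  have hWle : W ≤ 2 * v - v ^ 2 - 1.16 + A + 0.0027 - 1.21 * e := by
    rw [hW, hD]; nlinarith
  have hW1 : 2 * v - v ^ 2 - 1.16 + A + 0.0027 - 1.21 * e ≤ A - 0.157 - 1.21 * e := by
    nlinarith [sq_nonneg (v - 1)]
  -- the theta bound
  have hM : u - 2 + A ≤ (1 + D) * ((3.04 + A) / 2 + 0.83 * e + 0.0001) := by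
    rw [hD]; nlinarith [mul_nonneg he0 (sub_nonneg.2 he1), mul_nonneg he0 (sub_nonneg.2 hA2)]
  have hX : (4.51 - 4 * A) * ((3.04 + A) / 2 + 0.83 * e + 0.0001) * v ≤
      (3.04 + A) / 2 * (4.51 - 4 * A) * v + 0.822 * e + 0.0001 := by
    have f1 : (4.51 - 4 * A) * (0.83 * e + 0.0001) ≤ 0.99 * (0.83 * e + 0.0001) :=
      mul_le_mul_of_nonneg_right (by linarith) (by linarith)
    have f2 : (4.51 - 4 * A) * (0.83 * e + 0.0001) * v ≤ (4.51 - 4 * A) * (0.83 * e + 0.0001) :=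
      mul_le_of_le_one_right (mul_nonneg hkpos.le (by linarith)) hv1
    nlinarith
  -- F = 2 A (1 + v) + (3.04 + A) / 2 * k * v
  obtain ⟨F, hF⟩ : ∃ F : ℝ, F = 2 * A * (1 + v) + (3.04 + A) / 2 * (4.51 - 4 * A) * v := ⟨_, rfl⟩
  have hF2 : 2 * A ≤ F := by
    have : 0 ≤ (3.04 + A) / 2 * (4.51 - 4 * A) * v :=
      mul_nonneg (mul_nonneg (by linarith) hkpos.le) hv0.le
    nlinarith [mul_pos hApos hv0]
  have hja := ja A v e hA1 hA2 hv0.le hv1 he0 (by linarith)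
  obtain ⟨W0, hW0'⟩ : ∃ W0 : ℝ, W0 = 2 * v - v ^ 2 - 1.16 + A + 0.0027 := ⟨_, rfl⟩
  rw [← hW0'] at hWle hW1 hja
  have hja2 : F * W0 + 0.0001 ≤ 4.51 * A * v + e * (1.598 * A + 0.129) := by
    rw [hF]; nlinarith
  have hmain : (F + 0.822 * e + 0.0001) * W ≤ 4.51 * A * v := by
    have g1 : (F + 0.822 * e + 0.0001) * W ≤ (F + 0.822 * e + 0.0001) * (W0 - 1.21 * e) :=
      mul_le_mul_of_nonneg_left hWle (by linarith)
    have g2 : (0.822 * e + 0.0001) * (W0 - 1.21 * e) ≤ (0.822 * e + 0.0001) * (A - 0.157) :=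
      mul_le_mul_of_nonneg_left (by linarith) (by linarith)
    have g3 : 1.21 * e * (2 * A) ≤ 1.21 * e * F := mul_le_mul_of_nonneg_left hF2 (by linarith)
    nlinarith
  -- back
  have hkey : (4.51 - 4 * A) * ((2 * l + (2 * l + (u - 2 + A)) * v) * W) ≤
      (4.51 - 4 * A) * (451 / 100 * l * v) := by
    have r1 : (4.51 - 4 * A) * (2 * l + (2 * l + (u - 2 + A)) * v) =
        2 * (A * (1 + D)) * (1 + v) + (u - 2 + A) * (4.51 - 4 * A) * v := by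
      rw [← hk]; ring
    have r2 : (u - 2 + A) * ((4.51 - 4 * A) * v) ≤
        (1 + D) * ((3.04 + A) / 2 + 0.83 * e + 0.0001) * ((4.51 - 4 * A) * v) :=
      mul_le_mul_of_nonneg_right hM (mul_nonneg hkpos.le hv0.le)
    have r3 : (4.51 - 4 * A) * (2 * l + (2 * l + (u - 2 + A)) * v) ≤
        (1 + D) * (F + 0.822 * e + 0.0001) := by
      rw [r1, hF]
      have := mul_le_mul_of_nonneg_left hX hg.le
      nlinarith
    have r4 : (4.51 - 4 * A) * (2 * l + (2 * l + (u - 2 + A)) * v) * W ≤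
        (1 + D) * (F + 0.822 * e + 0.0001) * W := mul_le_mul_of_nonneg_right r3 hW0.le
    have r5 : (1 + D) * ((F + 0.822 * e + 0.0001) * W) ≤ (1 + D) * (4.51 * A * v) :=
      mul_le_mul_of_nonneg_left hmain hg.le
    have r6 : (4.51 - 4 * A) * (451 / 100 * l * v) = (1 + D) * (4.51 * A * v) := by
      have : (4.51 - 4 * A) * (451 / 100 * l * v) = 4.51 * (l * (4.51 - 4 * A)) * v := by ring
      rw [this, hk]; ring
    rw [r6]
    calc (4.51 - 4 * A) * ((2 * l + (2 * l + (u - 2 + A)) * v) * W)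
        = (4.51 - 4 * A) * (2 * l + (2 * l + (u - 2 + A)) * v) * W := by ring
      _ ≤ (1 + D) * (F + 0.822 * e + 0.0001) * W := r4
      _ = (1 + D) * ((F + 0.822 * e + 0.0001) * W) := by ring
      _ ≤ _ := r5
  exact le_of_mul_le_mul_left hkey hkpos

end Pool.Agent.Work.MP_f2148a_nt.M56.N2
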