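import Pool.Agent.Work.MP_f2148a_nt.M56.N2.Defs

set_option autoImplicit false

/-!
# Case B, away from the corner: `Y = 3 (1 + D) - u ≥ A = 4.51 l / b`, window `a = Y`, cost `t = 0`,
`D ≤ 0.9875`. Margin `0.0054` (worst at `D = 0.9875`, `Y = 3 - 2.04 D`, `l` minimal, `v = 0.809`).

Reductions (with `u = 3 (1 + D) - Y`, so `O = 2.5 - 1.5 D - (5/6) Y - mu u`):
(1) `W := 2 v - v^2 - O + 1/1000`; if `W ≤ 0` trivial;
(2) the difference `Y b v - (2 l (1 + v) + (3 D + 1) v) W` is affine in `l` with slope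
    `4 Y v - 2 (1 + v) W ≥ 0`, so `l` may be replaced by its minimum `4 l = 5.95 (1 + D) - 2.65 Y`
    (from `h3`);
(3) then, for fixed `Y`, `v`, it decreases in `D`; so `D = (Y + 0.78) / 1.74` (`Y ≤ 0.93825`),
    `D = 0.9875` (`0.93825 ≤ Y ≤ 0.9855`), `D = (3 - Y) / 2.04` (`Y ≥ 0.9855`), up to the slack;
(4) polynomial inequalities in `(Y, v)`.
-/

namespace Pool.Agent.Work.MP_f2148a_nt.M56.N2

private noncomputable def GG (D Y v : ℝ) : ℝ :=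
  Y * v * (695 / 100 * (1 + D) - 265 / 100 * Y - 2 / 10000) -
    ((2975 / 1000 * (1 + D) - 1325 / 1000 * Y - 1 / 10000) * (1 + v) + (3 * D + 1) * v) *
    (2 * v - v ^ 2 - ((5 / 6 - 3 / 10000) * (3 * (1 + D) - Y) - 4 * D) + 1 / 1000)

private noncomputable def SS (D Y v : ℝ) : ℝ :=
  4 * Y * v - 2 * (1 + v) *
    (2 * v - v ^ 2 - ((5 / 6 - 3 / 10000) * (3 * (1 + D) - Y) - 4 * D) + 1 / 1000)

private theorem g1 (Y v : ℝ) (h1 : 0 ≤ Y) (h2 : Y ≤ 9383 / 10000) (hv : 0 ≤ v)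
    (hv1 : v ≤ 1) : 0 ≤ GG ((Y + 7801 / 10000) / (174 / 100)) Y v := by
  unfold GG
  have a1 := sub_nonneg.2 h1
  have a2 := sub_nonneg.2 h2
  have a3 := sub_nonneg.2 hv1
  nlinarith [mul_nonneg hv (sq_nonneg (v - 81 / 100)), mul_nonneg a3 (sq_nonneg (v - 81 / 100)),
    mul_nonneg a1 a2, mul_nonneg (mul_nonneg a1 a2) hv, mul_nonneg (mul_nonneg a1 a2) a3,
    mul_nonneg (mul_nonneg a1 hv) (sq_nonneg (v - 81 / 100)),
    mul_nonneg (mul_nonneg a2 hv) (sq_nonneg (v - 81 / 100)),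
    mul_nonneg (mul_nonneg a1 a3) (sq_nonneg (v - 81 / 100)),
    mul_nonneg (mul_nonneg a2 a3) (sq_nonneg (v - 81 / 100)),
    mul_nonneg a1 hv, mul_nonneg a2 hv, mul_nonneg a1 a3, mul_nonneg a2 a3]

private theorem g2 (Y v : ℝ) (h1 : 938 / 1000 ≤ Y) (h2 : Y ≤ 986 / 1000) (hv : 0 ≤ v)
    (hv1 : v ≤ 1) : 0 ≤ GG (9875 / 10000) Y v := by
  unfold GG
  have a1 := sub_nonneg.2 h1
  have a2 := sub_nonneg.2 h2
  have a3 := sub_nonneg.2 hv1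
  nlinarith [mul_nonneg hv (sq_nonneg (v - 81 / 100)), mul_nonneg a3 (sq_nonneg (v - 81 / 100)),
    mul_nonneg a1 a2, mul_nonneg (mul_nonneg a1 a2) hv, mul_nonneg (mul_nonneg a1 a2) a3,
    mul_nonneg (mul_nonneg a1 hv) (sq_nonneg (v - 81 / 100)),
    mul_nonneg (mul_nonneg a2 hv) (sq_nonneg (v - 81 / 100)),
    mul_nonneg (mul_nonneg a1 a3) (sq_nonneg (v - 81 / 100)),
    mul_nonneg (mul_nonneg a2 a3) (sq_nonneg (v - 81 / 100)),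
    mul_nonneg a1 hv, mul_nonneg a2 hv, mul_nonneg a1 a3, mul_nonneg a2 a3]

private theorem g3 (Y v : ℝ) (h1 : 9854 / 10000 ≤ Y) (h2 : Y ≤ 12 / 10) (hv : 0 ≤ v)
    (hv1 : v ≤ 1) : 0 ≤ GG ((30001 / 10000 - Y) / (204 / 100)) Y v := by
  unfold GG
  have a1 := sub_nonneg.2 h1
  have a2 := sub_nonneg.2 h2
  have a3 := sub_nonneg.2 hv1
  nlinarith [mul_nonneg hv (sq_nonneg (v - 81 / 100)), mul_nonneg a3 (sq_nonneg (v - 81 / 100)),
    mul_nonneg a1 a2, mul_nonneg (mul_nonneg a1 a2) hv, mul_nonneg (mul_nonneg a1 a2) a3,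
    mul_nonneg (mul_nonneg a1 hv) (sq_nonneg (v - 81 / 100)),
    mul_nonneg (mul_nonneg a2 hv) (sq_nonneg (v - 81 / 100)),
    mul_nonneg (mul_nonneg a1 a3) (sq_nonneg (v - 81 / 100)),
    mul_nonneg (mul_nonneg a2 a3) (sq_nonneg (v - 81 / 100)),
    mul_nonneg a1 hv, mul_nonneg a2 hv, mul_nonneg a1 a3, mul_nonneg a2 a3]

private theorem g3b (Y v : ℝ) (h1 : 12 / 10 ≤ Y) (h2 : Y ≤ 23206 / 10000) (hv : 0 ≤ v)
    (hv1 : v ≤ 1) : 0 ≤ GG ((30001 / 10000 - Y) / (204 / 100)) Y v := by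
  unfold GG
  have a1 := sub_nonneg.2 h1
  have a2 := sub_nonneg.2 h2
  have a3 := sub_nonneg.2 hv1
  nlinarith [mul_nonneg hv (sq_nonneg (v - 0 / 1)), mul_nonneg a3 (sq_nonneg (v - 0 / 1)),
    mul_nonneg a1 a2, mul_nonneg (mul_nonneg a1 a2) hv, mul_nonneg (mul_nonneg a1 a2) a3,
    mul_nonneg (mul_nonneg a1 hv) (sq_nonneg (v - 0 / 1)),
    mul_nonneg (mul_nonneg a2 hv) (sq_nonneg (v - 0 / 1)),
    mul_nonneg (mul_nonneg a1 a3) (sq_nonneg (v - 0 / 1)),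
    mul_nonneg (mul_nonneg a2 a3) (sq_nonneg (v - 0 / 1)),
    mul_nonneg a1 hv, mul_nonneg a2 hv, mul_nonneg a1 a3, mul_nonneg a2 a3]

private theorem g4 (Y v : ℝ) (h1 : 0 ≤ Y) (h2 : Y ≤ 17402 / 10000) (hv : 0 ≤ v)
    (hv1 : v ≤ 1) : 0 ≤ GG (-(1 / 10000)) Y v := by
  unfold GG
  have a1 := sub_nonneg.2 h1
  have a2 := sub_nonneg.2 h2
  have a3 := sub_nonneg.2 hv1
  nlinarith [mul_nonneg hv (sq_nonneg (v - 0 / 1)), mul_nonneg a3 (sq_nonneg (v - 0 / 1)),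
    mul_nonneg a1 a2, mul_nonneg (mul_nonneg a1 a2) hv, mul_nonneg (mul_nonneg a1 a2) a3,
    mul_nonneg (mul_nonneg a1 hv) (sq_nonneg (v - 0 / 1)),
    mul_nonneg (mul_nonneg a2 hv) (sq_nonneg (v - 0 / 1)),
    mul_nonneg (mul_nonneg a1 a3) (sq_nonneg (v - 0 / 1)),
    mul_nonneg (mul_nonneg a2 a3) (sq_nonneg (v - 0 / 1)),
    mul_nonneg a1 hv, mul_nonneg a2 hv, mul_nonneg a1 a3, mul_nonneg a2 a3]

private theorem g5 (Y v : ℝ) (h1 : 174 / 100 ≤ Y) (h2 : Y ≤ 23206 / 10000) (hv : 0 ≤ v)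
    (hv1 : v ≤ 1) : 0 ≤ GG ((Y - 126 / 1000000) / (174 / 100) - 1) Y v := by
  unfold GG
  have a1 := sub_nonneg.2 h1
  have a2 := sub_nonneg.2 h2
  have a3 := sub_nonneg.2 hv1
  nlinarith [mul_nonneg hv (sq_nonneg (v - 0 / 1)), mul_nonneg a3 (sq_nonneg (v - 0 / 1)),
    mul_nonneg a1 a2, mul_nonneg (mul_nonneg a1 a2) hv, mul_nonneg (mul_nonneg a1 a2) a3,
    mul_nonneg (mul_nonneg a1 hv) (sq_nonneg (v - 0 / 1)),
    mul_nonneg (mul_nonneg a2 hv) (sq_nonneg (v - 0 / 1)),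
    mul_nonneg (mul_nonneg a1 a3) (sq_nonneg (v - 0 / 1)),
    mul_nonneg (mul_nonneg a2 a3) (sq_nonneg (v - 0 / 1)),
    mul_nonneg a1 hv, mul_nonneg a2 hv, mul_nonneg a1 a3, mul_nonneg a2 a3]

private theorem s1 (Y v : ℝ) (h1 : 0 ≤ Y) (h2 : Y ≤ 9383 / 10000) (hv : 0 ≤ v)
    (hv1 : v ≤ 1) : 0 ≤ SS ((Y + 7801 / 10000) / (174 / 100)) Y v := by
  unfold SS
  have a1 := sub_nonneg.2 h1
  have a2 := sub_nonneg.2 h2
  have a3 := sub_nonneg.2 hv1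
  nlinarith [mul_nonneg hv (sq_nonneg (v - 62 / 100)), mul_nonneg a3 (sq_nonneg (v - 62 / 100)),
    mul_nonneg a1 a2, mul_nonneg (mul_nonneg a1 a2) hv, mul_nonneg (mul_nonneg a1 a2) a3,
    mul_nonneg (mul_nonneg a1 hv) (sq_nonneg (v - 62 / 100)),
    mul_nonneg (mul_nonneg a2 hv) (sq_nonneg (v - 62 / 100)),
    mul_nonneg (mul_nonneg a1 a3) (sq_nonneg (v - 62 / 100)),
    mul_nonneg (mul_nonneg a2 a3) (sq_nonneg (v - 62 / 100)),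
    mul_nonneg a1 hv, mul_nonneg a2 hv, mul_nonneg a1 a3, mul_nonneg a2 a3]

private theorem s2 (Y v : ℝ) (h1 : 938 / 1000 ≤ Y) (h2 : Y ≤ 986 / 1000) (hv : 0 ≤ v)
    (hv1 : v ≤ 1) : 0 ≤ SS (9875 / 10000) Y v := by
  unfold SS
  have a1 := sub_nonneg.2 h1
  have a2 := sub_nonneg.2 h2
  have a3 := sub_nonneg.2 hv1
  nlinarith [mul_nonneg hv (sq_nonneg (v - 60 / 100)), mul_nonneg a3 (sq_nonneg (v - 60 / 100)),
    mul_nonneg a1 a2, mul_nonneg (mul_nonneg a1 a2) hv, mul_nonneg (mul_nonneg a1 a2) a3,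
    mul_nonneg (mul_nonneg a1 hv) (sq_nonneg (v - 60 / 100)),
    mul_nonneg (mul_nonneg a2 hv) (sq_nonneg (v - 60 / 100)),
    mul_nonneg (mul_nonneg a1 a3) (sq_nonneg (v - 60 / 100)),
    mul_nonneg (mul_nonneg a2 a3) (sq_nonneg (v - 60 / 100)),
    mul_nonneg a1 hv, mul_nonneg a2 hv, mul_nonneg a1 a3, mul_nonneg a2 a3]

private theorem s3 (Y v : ℝ) (h1 : 9854 / 10000 ≤ Y) (h2 : Y ≤ 12 / 10) (hv : 0 ≤ v)
    (hv1 : v ≤ 1) : 0 ≤ SS ((30001 / 10000 - Y) / (204 / 100)) Y v := by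
  unfold SS
  have a1 := sub_nonneg.2 h1
  have a2 := sub_nonneg.2 h2
  have a3 := sub_nonneg.2 hv1
  nlinarith [mul_nonneg hv (sq_nonneg (v - 55 / 100)), mul_nonneg a3 (sq_nonneg (v - 55 / 100)),
    mul_nonneg a1 a2, mul_nonneg (mul_nonneg a1 a2) hv, mul_nonneg (mul_nonneg a1 a2) a3,
    mul_nonneg (mul_nonneg a1 hv) (sq_nonneg (v - 55 / 100)),
    mul_nonneg (mul_nonneg a2 hv) (sq_nonneg (v - 55 / 100)),
    mul_nonneg (mul_nonneg a1 a3) (sq_nonneg (v - 55 / 100)),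
    mul_nonneg (mul_nonneg a2 a3) (sq_nonneg (v - 55 / 100)),
    mul_nonneg a1 hv, mul_nonneg a2 hv, mul_nonneg a1 a3, mul_nonneg a2 a3]

private theorem s3b (Y v : ℝ) (h1 : 12 / 10 ≤ Y) (h2 : Y ≤ 23206 / 10000) (hv : 0 ≤ v)
    (hv1 : v ≤ 1) : 0 ≤ SS ((30001 / 10000 - Y) / (204 / 100)) Y v := by
  unfold SS
  have a1 := sub_nonneg.2 h1
  have a2 := sub_nonneg.2 h2
  have a3 := sub_nonneg.2 hv1
  nlinarith [mul_nonneg hv (sq_nonneg (v - 0 / 1)), mul_nonneg a3 (sq_nonneg (v - 0 / 1)),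
    mul_nonneg a1 a2, mul_nonneg (mul_nonneg a1 a2) hv, mul_nonneg (mul_nonneg a1 a2) a3,
    mul_nonneg (mul_nonneg a1 hv) (sq_nonneg (v - 0 / 1)),
    mul_nonneg (mul_nonneg a2 hv) (sq_nonneg (v - 0 / 1)),
    mul_nonneg (mul_nonneg a1 a3) (sq_nonneg (v - 0 / 1)),
    mul_nonneg (mul_nonneg a2 a3) (sq_nonneg (v - 0 / 1)),
    mul_nonneg a1 hv, mul_nonneg a2 hv, mul_nonneg a1 a3, mul_nonneg a2 a3]

private theorem conc {D D1 D2 Y v : ℝ} (h1 : D1 ≤ D) (h2 : D ≤ D2) (hv : 0 ≤ v)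
    (k1 : 0 ≤ GG D1 Y v) (k2 : 0 ≤ GG D2 Y v) : 0 ≤ GG D Y v := by
  rcases eq_or_lt_of_le (h1.trans h2) with h | h
  · have : D = D1 := le_antisymm (h2.trans h.ge) h1
    rw [this]
    exact k1
  · have e : (D2 - D1) * GG D Y v = (D2 - D) * GG D1 Y v + (D - D1) * GG D2 Y v +
        (2975 / 1000 * (1 + v) + 3 * v) * (15009 / 10000) * ((D - D1) * (D2 - D) * (D2 - D1)) := by
      unfold GG
      ring
    have e1 : 0 ≤ (D2 - D) * GG D1 Y v := mul_nonneg (sub_nonneg.2 h2) k1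
    have e2 : 0 ≤ (D - D1) * GG D2 Y v := mul_nonneg (sub_nonneg.2 h1) k2
    have e3 : 0 ≤ (2975 / 1000 * (1 + v) + 3 * v) * (15009 / 10000) *
        ((D - D1) * (D2 - D) * (D2 - D1)) :=
      mul_nonneg (by positivity) (mul_nonneg (mul_nonneg (sub_nonneg.2 h1) (sub_nonneg.2 h2))
        (sub_nonneg.2 h.le))
    refine nonneg_of_mul_nonneg_right (a := D2 - D1) ?_ (sub_pos.2 h)
    rw [e]
    positivity

private theorem sMono {D D2 Y v : ℝ} (h2 : D ≤ D2) (hv : 0 ≤ v) (k : 0 ≤ SS D2 Y v) :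
    0 ≤ SS D Y v := by
  have e : SS D Y v = SS D2 Y v + 2 * (1 + v) * (15009 / 10000) * (D2 - D) := by
    unfold SS
    ring
  rw [e]
  have := sub_nonneg.2 h2
  positivity

private theorem both {D Y v : ℝ} (h0 : -(1 / 10000) ≤ D) (hD : D ≤ 9875 / 10000) (hY0 : 0 ≤ Y)
    (h1 : 174 / 100 * D - 7801 / 10000 ≤ Y) (h2 : Y ≤ 30001 / 10000 - 204 / 100 * D)
    (h4 : Y ≤ 174 / 100 * (1 + D) + 126 / 1000000) (hv : 0 ≤ v) (hv1 : v ≤ 1) :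
    0 ≤ GG D Y v ∧ 0 ≤ SS D Y v := by
  have hYm : Y ≤ 23206 / 10000 := by linarith
  rcases le_total Y (9383 / 10000) with c1 | c1
  · have hm : D ≤ (Y + 7801 / 10000) / (174 / 100) := by
      rw [le_div_iff₀ (by norm_num)]
      linarith
    exact ⟨conc h0 hm hv (g4 Y v hY0 (by linarith) hv hv1) (g1 Y v hY0 c1 hv hv1),
      sMono hm hv (s1 Y v hY0 c1 hv hv1)⟩
  rcases le_total Y (986 / 1000) with c2 | c2
  · exact ⟨conc h0 hD hv (g4 Y v hY0 (by linarith) hv hv1) (g2 Y v (by linarith) c2 hv hv1),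
      sMono hD hv (s2 Y v (by linarith) c2 hv hv1)⟩
  have hm : D ≤ (30001 / 10000 - Y) / (204 / 100) := by
    rw [le_div_iff₀ (by norm_num)]
    linarith
  rcases le_total Y (12 / 10) with c3 | c3
  · exact ⟨conc h0 hm hv (g4 Y v hY0 (by linarith) hv hv1) (g3 Y v (by linarith) c3 hv hv1),
      sMono hm hv (s3 Y v (by linarith) c3 hv hv1)⟩
  rcases le_total Y (174 / 100) with c4 | c4
  · exact ⟨conc h0 hm hv (g4 Y v hY0 (by linarith) hv hv1) (g3b Y v c3 hYm hv hv1),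
      sMono hm hv (s3b Y v c3 hYm hv hv1)⟩
  · have h5 : (Y - 126 / 1000000) / (174 / 100) - 1 ≤ D := by
      rw [sub_le_iff_le_add, div_le_iff₀ (by norm_num)]
      linarith
    exact ⟨conc h5 hm hv (g5 Y v c4 hYm hv hv1) (g3b Y v c3 hYm hv hv1),
      sMono hm hv (s3b Y v c3 hYm hv hv1)⟩

theorem caseB (D l Y : ℝ) (hc : Cell D l (3 * (1 + D) - Y)) (hY0 : 0 ≤ Y)
    (hY : 451 / 100 * l ≤ Y * (4 * l + 1 + D)) (hD : D ≤ 9875 / 10000) :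
    E2 (Y * (4 * l + 1 + D)) (3 * D + 1) l
      ((5 / 6 - 3 / 10000) * (3 * (1 + D) - Y) - 4 * D) := by
  intro v hv hv1
  obtain ⟨k0, k1, k2, k3, k4, -⟩ := hc
  obtain ⟨hG, hS⟩ := both k0 hD hY0 (by linarith) (by linarith) (by linarith) hv.le hv1
  have hl : 0 ≤ 4 * l - (595 / 100 * (1 + D) - 265 / 100 * Y - 2 / 10000) := by linarith
  have e : Y * (4 * l + 1 + D) * v - (2 * l + (2 * l + (3 * D + 1)) * v) *
      (2 * v - v ^ 2 - ((5 / 6 - 3 / 10000) * (3 * (1 + D) - Y) - 4 * D) + 1 / 1000) =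
      GG D Y v + (4 * l - (595 / 100 * (1 + D) - 265 / 100 * Y - 2 / 10000)) / 4 * SS D Y v := by
    unfold GG SS
    ring
  rw [← sub_nonneg, e]
  positivity

end Pool.Agent.Work.MP_f2148a_nt.M56.N2
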