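import Pool.Agent.Work.MP_f2148a_nt.M56.N2.Defs

set_option autoImplicit false

/-!
# Case B near the corner, `n = 2`, `m ≤ 4`, and (E1). Margin `0.0046 - 0.001`.

Take `z₂ = 1/10 + 30 (1 - D)` (at least `1/20`). For the first part: it is affine in `z`, and for fixed `D`, `l`
affine in `Y`; `l ≥ (5.95 (1 + D) - 2.65 Y) / 4` from `h3`, `1.74 D - 0.78 ≤ Y ≤ 3 - 2.04 D` up to the slack.
Second part: `G := 1 + 1/1000 - O - b/14`; if `G ≤ 0` trivial (`0 < z + 2 l - m`); otherwise `z ^ 2 - 4 m G (z + 2 l - m)`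
is increasing in `z ≥ z₂ ≥ 2 m G`, so only `z = z₂`.
-/

namespace Pool.Agent.Work.MP_f2148a_nt.M56.N2

theorem caseC (D l Y : ℝ) (hc : Cell D l (3 * (1 + D) - Y))
    (hY : 451 / 100 * l ≤ Y * (4 * l + 1 + D)) (hD : 9875 / 10000 ≤ D) :
    ∃ z₂ : ℝ, 0 < z₂ ∧
      (∀ z : ℝ, 0 ≤ z → z ≤ z₂ →
        (3 * D + 1 + 4 * l + z) *
          (1 + 1 / 1000 - ((5 / 6 - 3 / 10000) * (3 * (1 + D) - Y) - 4 * D)) ≤
            Y * (4 * l + 1 + D)) ∧
      (∀ m z : ℝ, (m = 1 ∨ m = 2 ∨ m = 3 ∨ m = 4) → z₂ ≤ z →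
        (1 + 1 / 1000 - ((5 / 6 - 3 / 10000) * (3 * (1 + D) - Y) - 4 * D)
          - (4 * l + 1 + D) / 14) * (4 * m * (z + 2 * l - m)) ≤ z ^ 2) := by
  obtain ⟨h0, h1, h2, h3, h4, hl⟩ := hc
  have hD1 : D ≤ 1 + 6 / 100000 := by linarith
  have hYlo : 174 / 100 * D - 78 / 100 - 1 / 10000 ≤ Y := by linarith
  have hYhi : Y ≤ 3 - 204 / 100 * D + 1 / 10000 := by linarith
  refine ⟨1 / 10 + 30 * (1 - D), by linarith, ?_, ?_⟩
  · intro z hz0 hz
    set K := 1 + 1 / 1000 - ((5 / 6 - 3 / 10000) * (3 * (1 + D) - Y) - 4 * D) with hK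
    have hK0 : 0 ≤ K := by rw [hK]; linarith
    have hYK : 0 ≤ Y - K := by rw [hK]; linarith
    have e1 : (3 * D + 1 + 4 * l + z) * K ≤ (3 * D + 1 + 4 * l + (1 / 10 + 30 * (1 - D))) * K :=
      mul_le_mul_of_nonneg_right (by linarith) hK0
    have e2 : (595 / 100 * (1 + D) - 265 / 100 * Y - 2 / 10000) * (Y - K) ≤ 4 * l * (Y - K) :=
      mul_le_mul_of_nonneg_right (by linarith) hYK
    have e3 : (3 * D + 1 + (1 / 10 + 30 * (1 - D))) * K - Y * (1 + D) ≤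
        (595 / 100 * (1 + D) - 265 / 100 * Y - 2 / 10000) * (Y - K) := by
      rw [hK]
      nlinarith [mul_nonneg (sub_nonneg.2 hYlo) (sub_nonneg.2 hYhi),
        mul_nonneg (sub_nonneg.2 hD) (sub_nonneg.2 hD1),
        mul_nonneg (sub_nonneg.2 hYlo) (sub_nonneg.2 hD),
        mul_nonneg (sub_nonneg.2 hYhi) (sub_nonneg.2 hD),
        mul_nonneg (sub_nonneg.2 hYlo) (sub_nonneg.2 hD1),
        mul_nonneg (sub_nonneg.2 hYhi) (sub_nonneg.2 hD1)]
    linarith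
  · intro m z hm hz
    set G := 1 + 1 / 1000 - ((5 / 6 - 3 / 10000) * (3 * (1 + D) - Y) - 4 * D)
          - (4 * l + 1 + D) / 14 with hG
    have hz0 : 9 / 100 ≤ z := by linarith
    have hl1 : 46 / 10 ≤ 2 * l := by linarith
    rcases le_or_gt G 0 with hG0 | hG0
    · have h5 : 0 ≤ 4 * m * (z + 2 * l - m) := by
        rcases hm with rfl | rfl | rfl | rfl <;> nlinarith
      have h6 : G * (4 * m * (z + 2 * l - m)) ≤ 0 := mul_nonpos_of_nonpos_of_nonneg hG0 h5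
      nlinarith [sq_nonneg z]
    · have hl2 : 2 * l ≤ 465 / 100 := by rw [hG] at hG0; linarith
      have hG1 : G ≤ 361 / 10000 * z - 118 / 10000 := by rw [hG]; linarith
      have h5 : 4 * m * (z + 2 * l - m) ≤ 16 * z + 212 / 10 := by
        rcases hm with rfl | rfl | rfl | rfl <;> linarith
      have h6 : G * (4 * m * (z + 2 * l - m)) ≤ G * (16 * z + 212 / 10) :=
        mul_le_mul_of_nonneg_left h5 hG0.le
      have h7 : G * (16 * z + 212 / 10) ≤ (361 / 10000 * z - 118 / 10000) * (16 * z + 212 / 10) :=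
        mul_le_mul_of_nonneg_right hG1 (by linarith)
      nlinarith [sq_nonneg (z - 66 / 100)]

end Pool.Agent.Work.MP_f2148a_nt.M56.N2
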