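import Pool.Agent.Work.MP_f2148a_nt.M56.N2.Defs

set_option autoImplicit false

/-!
# Case B near the corner, `n = 2`, `m ≥ 5`. Here `X = z + 2 l = h + m`.

Margins: `0.0108 - 0.001` (first, worst at the corner `D = 1`, `Y = 0.96`, `l = 2.84`, `X = 7.18`) and
`0.034 - 0.001` (second). For fixed `l`, `X` the corner `D = 1`, `Y = 0.96` is the worst point of the wedge
`1.74 D - 0.78 ≤ Y ≤ 3 - 2.04 D` (`O = 2.5 - 1.5 D - (5/6) Y - mu u`, and `|b/w - 5/6| ≤ 0.2`), for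
`2.29 ≤ l ≤ 3.7` (from `h3` and `hY`); then polynomial inequalities in `(l, X)`.
-/

namespace Pool.Agent.Work.MP_f2148a_nt.M56.N2

private theorem bounds (D l Y : ℝ) (hc : Cell D l (3 * (1 + D) - Y))
    (hY : 451 / 100 * l ≤ Y * (4 * l + 1 + D)) (hD : 9875 / 10000 ≤ D) :
    D ≤ 1 + 1 / 10000 ∧ 229 / 100 ≤ l ∧ l ≤ 35 / 10 ∧ 0 < Y ∧ Y ≤ 99 / 100 ∧
      -(174 / 100) * (1 - D) - 1 / 10000 ≤ Y - 96 / 100 ∧
      Y - 96 / 100 ≤ 204 / 100 * (1 - D) + 1 / 10000 := by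
  have h1 := hc.h1
  have h2 := hc.h2
  have h3 := hc.h3
  have hl := hc.hl
  have hD1 : D ≤ 1 + 1 / 10000 := by linarith
  have hYu : Y ≤ 9857 / 10000 := by linarith
  have hl0 : 229 / 100 ≤ l := by linarith
  have hY0 : 0 < Y := by linarith
  have h5 : Y * (4 * l + 1 + D) ≤ 9857 / 10000 * (4 * l + 1 + D) :=
    mul_le_mul_of_nonneg_right hYu (by linarith)
  refine ⟨hD1, hl0, by linarith, hY0, by linarith, by linarith, by linarith⟩

/-- reduction to the corner `D = 1`, `Y = 0.96` -/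
private theorem corner (D l Y X c : ℝ) (hD : 9875 / 10000 ≤ D) (hD1 : D ≤ 1 + 1 / 10000)
    (hl0 : 229 / 100 ≤ l) (hl1 : l ≤ 35 / 10) (hY0 : 0 < Y) (hYu : Y ≤ 99 / 100)
    (hη1 : -(174 / 100) * (1 - D) - 1 / 10000 ≤ Y - 96 / 100)
    (hη2 : Y - 96 / 100 ≤ 204 / 100 * (1 - D) + 1 / 10000)
    (hX1 : 5 ≤ X) (hX3 : 2 * l ≤ X) (hc : 80352 / 100000 ≤ c) (hc' : X ≤ 10 ∨ 8055 / 10000 ≤ c) :
    (3 * D + 1 + 2 * l + X) *
        (1 + 1 / 1000 - ((5 / 6 - 3 / 10000) * (3 * (1 + D) - Y) - 4 * D)) -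
      Y * (4 * l + 1 + D) ≤
      (3 * D + 1 + 2 * l + X) * (c - 96 / 100 * ((4 * l + 2) / (4 + 2 * l + X))) := by
  have hw1 : 0 < 4 + 2 * l + X := by linarith
  obtain ⟨ρ, hρ⟩ : ∃ ρ, ρ = (4 * l + 2) / (4 + 2 * l + X) := ⟨_, rfl⟩
  rw [← hρ]
  have hρ1 : ρ * (4 + 2 * l + X) = 4 * l + 2 := by rw [hρ, div_mul_cancel₀ _ hw1.ne']
  have hρ0 : 0 ≤ ρ := by rw [hρ]; positivity
  have hρ2 : ρ ≤ 1 := by rw [hρ, div_le_one hw1]; linarith
  obtain ⟨δ, hδ⟩ : ∃ δ, δ = 1 - D := ⟨_, rfl⟩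
  obtain ⟨η, hη⟩ : ∃ η, η = Y - 96 / 100 := ⟨_, rfl⟩
  have hDδ : D = 1 - δ := by linarith
  have hYη : Y = 96 / 100 + η := by linarith
  rw [← hη] at hη1 hη2
  rw [← hδ] at hη1 hη2
  subst hDδ
  subst hYη
  have hδ1 : -(1 / 10000) ≤ δ := by linarith
  have hδ2 : δ ≤ 125 / 10000 := by linarith
  have hδρ : -(1 / 10000) ≤ δ * ρ := by nlinarith
  have key : 0 ≤ (4 + 2 * l + X - 3 * δ) * (c - 802512 / 1000000 + 15009 / 10000 * δ) -
      96 / 100 * δ + 288 / 100 * (δ * ρ) +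
      η * ((4 * l + 2 - δ) - (5 / 6 - 3 / 10000) * (4 + 2 * l + X - 3 * δ)) := by
    obtain ⟨w, hw⟩ : ∃ w, w = 4 + 2 * l + X - 3 * δ := ⟨_, rfl⟩
    obtain ⟨b, hb⟩ : ∃ b, b = 4 * l + 2 - δ := ⟨_, rfl⟩
    have hbw : b ≤ w := by rw [hw, hb]; linarith
    have hb1 : 111 / 10 ≤ b := by rw [hb]; linarith
    have hw2 : 135 / 10 ≤ w := by rw [hw]; linarith
    have hδ3 : 0 ≤ δ + 1 / 10000 := by linarith
    have hcw : 0 ≤ w * (c - 80352 / 100000) := mul_nonneg (by linarith) (by linarith)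
    rw [← hw, ← hb]
    rcases le_or_gt ((5 / 6 - 3 / 10000) * w) b with h | h
    · have h1 : 0 ≤ (η + 174 / 100 * δ + 1 / 10000) * (b - (5 / 6 - 3 / 10000) * w) :=
        mul_nonneg (by linarith) (by linarith)
      have h2 : 0 ≤ (δ + 1 / 10000) *
          (15009 / 10000 * w - 96 / 100 - 174 / 100 * (b - (5 / 6 - 3 / 10000) * w)) :=
        mul_nonneg hδ3 (by linarith)
      nlinarith only [h1, h2, hcw, hδρ, hw2, hbw, hb1]
    · have h1 : 0 ≤ (204 / 100 * δ + 1 / 10000 - η) * ((5 / 6 - 3 / 10000) * w - b) :=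
        mul_nonneg (by linarith) (by linarith)
      rcases hc' with h' | h'
      · have hw3 : w ≤ 212 / 10 := by rw [hw]; linarith
        have h2 : 0 ≤ (δ + 1 / 10000) *
            (15009 / 10000 * w - 96 / 100 - 204 / 100 * ((5 / 6 - 3 / 10000) * w - b)) :=
          mul_nonneg hδ3 (by linarith)
        nlinarith only [h1, h2, hcw, hδρ, hw2, hbw, hb1]
      · have hcw' : 0 ≤ w * (c - 8055 / 10000) := mul_nonneg (by linarith) (by linarith)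
        have h2 : 0 ≤ (δ + 1 / 10000) * (204 / 100 * b - 96 / 100) :=
          mul_nonneg hδ3 (by linarith)
        have h3 : 0 ≤ (125 / 10000 - δ) * w := mul_nonneg (by linarith) (by linarith)
        nlinarith only [h1, h2, h3, hcw', hδρ, hw2, hbw, hb1]
  have e : (3 * (1 - δ) + 1 + 2 * l + X) * (c - 96 / 100 * ρ) -
      ((3 * (1 - δ) + 1 + 2 * l + X) *
        (1 + 1 / 1000 - ((5 / 6 - 3 / 10000) * (3 * (1 + (1 - δ)) - (96 / 100 + η)) - 4 * (1 - δ))) -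
      (96 / 100 + η) * (4 * l + 1 + (1 - δ))) =
      (4 + 2 * l + X - 3 * δ) * (c - 802512 / 1000000 + 15009 / 10000 * δ) -
      96 / 100 * δ + 288 / 100 * (δ * ρ) +
      η * ((4 * l + 2 - δ) - (5 / 6 - 3 / 10000) * (4 + 2 * l + X - 3 * δ)) := by
    linear_combination (-(96 / 100 : ℝ)) * hρ1
  linarith

private theorem last1 (l X : ℝ) (hl0 : 229 / 100 ≤ l) (hl1 : l ≤ 35 / 10) (hX1 : 5 ≤ X)
    (hX2 : X ≤ 10) (hX3 : 2 * l ≤ X) :
    20 * (X - 5) * (80352 / 100000 - 96 / 100 * ((4 * l + 2) / (4 + 2 * l + X))) ≤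
      (X - 2 * l) ^ 2 := by
  have hw1 : 0 < 4 + 2 * l + X := by linarith
  have key : 20 * (X - 5) * (80352 / 100000 * (4 + 2 * l + X) - 96 / 100 * (4 * l + 2)) ≤
      (X - 2 * l) ^ 2 * (4 + 2 * l + X) := by
    obtain ⟨p, hp⟩ : ∃ p, p = X - 5 := ⟨_, rfl⟩
    obtain ⟨q, hq⟩ : ∃ q, q = X - 2 * l := ⟨_, rfl⟩
    have hXp : X = 5 + p := by linarith
    have hlq : l = (5 + p - q) / 2 := by linarith
    subst hXp
    subst hlq
    have hp0 : 0 ≤ p := by linarith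
    have hq0 : 0 ≤ q := by linarith
    have hq5 : q ≤ 542 / 100 := by linarith
    have h0 : 0 ≤ 625 / 100 * p ^ 2 + p * (54 / 10 - 2234 / 100 * q + 2 * q ^ 2) + 14 * q ^ 2 -
        q ^ 3 := by
      rcases le_or_gt q (2 / 10) with h | h
      · nlinarith [mul_nonneg hp0 (sub_nonneg.2 h), mul_nonneg hq0 hq0, mul_nonneg hp0 (mul_nonneg hq0 hq0),
          mul_nonneg (mul_nonneg hq0 hq0) (sub_nonneg.2 h)]
      · have h1 : (54 / 10 - 2234 / 100 * q + 2 * q ^ 2) ^ 2 ≤ 25 * (14 * q ^ 2 - q ^ 3) := by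
          have a1 : 0 ≤ q ^ 3 * (542 / 100 - q) := mul_nonneg (by positivity) (by linarith)
          have a2 : 0 ≤ (q - 2 / 10) * (4268 / 100 * (q - 2) ^ 2 + 706 / 10) :=
            mul_nonneg (by linarith) (by positivity)
          nlinarith only [a1, a2, h.le, sq_nonneg (q - 2)]
        nlinarith only [h1, sq_nonneg (125 / 10 * p + (54 / 10 - 2234 / 100 * q + 2 * q ^ 2))]
    nlinarith only [h0, mul_nonneg hp0 hp0, mul_nonneg hp0 hq0, hp0]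
  have e : 20 * (X - 5) * (80352 / 100000 - 96 / 100 * ((4 * l + 2) / (4 + 2 * l + X))) =
      20 * (X - 5) * (80352 / 100000 * (4 + 2 * l + X) - 96 / 100 * (4 * l + 2)) /
        (4 + 2 * l + X) := by
    field_simp
  rw [e, div_le_iff₀ hw1]
  exact key

private theorem last2 (l X : ℝ) (hl0 : 229 / 100 ≤ l) (hl1 : l ≤ 35 / 10) (hX : 10 ≤ X) :
    X ^ 2 * (8055 / 10000 - 96 / 100 * ((4 * l + 2) / (4 + 2 * l + X))) ≤
      (X - 2 * l) ^ 2 := by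
  have hw1 : 0 < 4 + 2 * l + X := by linarith
  have key : X ^ 2 * (8055 / 10000 * (4 + 2 * l + X) - 96 / 100 * (4 * l + 2)) ≤
      (X - 2 * l) ^ 2 * (4 + 2 * l + X) := by
    obtain ⟨x, hx⟩ : ∃ x, x = X - 10 := ⟨_, rfl⟩
    obtain ⟨k, hk⟩ : ∃ k, k = 2 * l := ⟨_, rfl⟩
    have hXx : X = 10 + x := by linarith
    have hlk : l = k / 2 := by linarith
    subst hXx
    subst hlk
    have hx0 : 0 ≤ x := by linarith
    have hk0 : 458 / 100 ≤ k := by linarith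
    have hk1 : k ≤ 7 := by linarith
    have h1 : 0 ≤ 4643 / 10 - 6855 / 100 * k - 6 * k ^ 2 + k ^ 3 := by
      nlinarith only [mul_nonneg (sub_nonneg.2 hk0) (sq_nonneg (k - 7)), sq_nonneg (k - 7), hk1, hk0]
    have h2 : 0 ≤ x * (1122 / 10 - 571 / 100 * k - k ^ 2) :=
      mul_nonneg hx0 (by nlinarith only [hk0, hk1])
    have h3 : 0 ≤ x ^ 2 * (8 + 1145 / 10000 * k) := by positivity
    have h4 : 0 ≤ x ^ 3 := by positivity
    nlinarith only [h1, h2, h3, h4, hk0, hk1, mul_nonneg hx0 (sub_nonneg.2 hk0), hx0,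
      mul_nonneg (mul_nonneg hx0 hx0) (sub_nonneg.2 hk0), mul_nonneg hx0 hx0]
  have e : X ^ 2 * (8055 / 10000 - 96 / 100 * ((4 * l + 2) / (4 + 2 * l + X))) =
      X ^ 2 * (8055 / 10000 * (4 + 2 * l + X) - 96 / 100 * (4 * l + 2)) /
        (4 + 2 * l + X) := by
    field_simp
  rw [e, div_le_iff₀ hw1]
  exact key

theorem caseD1 (D l Y : ℝ) (hc : Cell D l (3 * (1 + D) - Y))
    (hY : 451 / 100 * l ≤ Y * (4 * l + 1 + D)) (hD : 9875 / 10000 ≤ D)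
    (X : ℝ) (hX1 : 5 ≤ X) (hX2 : X ≤ 10) (hX3 : 2 * l ≤ X) :
    (3 * D + 1 + 2 * l + X) *
      ((1 + 1 / 1000 - ((5 / 6 - 3 / 10000) * (3 * (1 + D) - Y) - 4 * D)) * (20 * (X - 5))
        - (X - 2 * l) ^ 2) ≤ Y * (4 * l + 1 + D) * (20 * (X - 5)) := by
  obtain ⟨hD1, hl0, hl1, hY0, hYu, hη1, hη2⟩ := bounds D l Y hc hY hD
  have h1 := corner D l Y X (80352 / 100000) hD hD1 hl0 hl1 hY0 hYu hη1 hη2 hX1 hX3 le_rfl
    (Or.inl hX2)
  have h2 := last1 l X hl0 hl1 hX1 hX2 hX3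
  have hA : 0 ≤ 20 * (X - 5) := by linarith
  have hw : 0 ≤ 3 * D + 1 + 2 * l + X := by linarith
  have h3 := mul_le_mul_of_nonneg_left h1 hA
  have h4 := mul_le_mul_of_nonneg_left h2 hw
  nlinarith only [h3, h4]

theorem caseD2 (D l Y : ℝ) (hc : Cell D l (3 * (1 + D) - Y))
    (hY : 451 / 100 * l ≤ Y * (4 * l + 1 + D)) (hD : 9875 / 10000 ≤ D)
    (X : ℝ) (hX : 10 ≤ X) :
    (3 * D + 1 + 2 * l + X) *
      ((1 + 1 / 1000 - ((5 / 6 - 3 / 10000) * (3 * (1 + D) - Y) - 4 * D)) * X ^ 2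
        - (X - 2 * l) ^ 2) ≤ Y * (4 * l + 1 + D) * X ^ 2 := by
  obtain ⟨hD1, hl0, hl1, hY0, hYu, hη1, hη2⟩ := bounds D l Y hc hY hD
  have h1 := corner D l Y X (8055 / 10000) hD hD1 hl0 hl1 hY0 hYu hη1 hη2 (by linarith)
    (by linarith) (by norm_num) (Or.inr le_rfl)
  have h2 := last2 l X hl0 hl1 hX
  have hA : 0 ≤ X ^ 2 := by positivity
  have hw : 0 ≤ 3 * D + 1 + 2 * l + X := by linarith
  have h3 := mul_le_mul_of_nonneg_left h1 hA
  have h4 := mul_le_mul_of_nonneg_left h2 hw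
  nlinarith only [h3, h4]

end Pool.Agent.Work.MP_f2148a_nt.M56.N2
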