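import Pool.Agent.Work.MP_f2148a_nt.M56.N2.Defs

set_option autoImplicit false

/-!
# Case B near the corner, `n ≥ 3`: (E2) with `2/3 th`, `3/2 O`. Large margin `0.16`.
-/

namespace Pool.Agent.Work.MP_f2148a_nt.M56.N2

theorem caseE (D l Y : ℝ) (hc : Cell D l (3 * (1 + D) - Y))
    (hY : 451 / 100 * l ≤ Y * (4 * l + 1 + D)) (hD : 9875 / 10000 ≤ D) :
    E2 (Y * (4 * l + 1 + D)) (2 / 3 * (3 * D + 1)) l
      (3 / 2 * ((5 / 6 - 3 / 10000) * (3 * (1 + D) - Y) - 4 * D)) := by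
  obtain ⟨h0, h1, h2, h3, h4, hl⟩ := hc
  have hO : 29 / 100 ≤ 3 / 2 * ((5 / 6 - 3 / 10000) * (3 * (1 + D) - Y) - 4 * D) := by linarith
  have hth0 : 0 ≤ 2 / 3 * (3 * D + 1) := by linarith
  have hth1 : 2 / 3 * (3 * D + 1) ≤ 116 / 100 * l := by linarith
  intro v hv0 hv1
  generalize Y * (4 * l + 1 + D) = P at hY ⊢
  generalize 3 / 2 * ((5 / 6 - 3 / 10000) * (3 * (1 + D) - Y) - 4 * D) = O at hO ⊢
  generalize 2 / 3 * (3 * D + 1) = th at hth0 hth1 ⊢
  have hP : 451 / 100 * l * v ≤ P * v := mul_le_mul_of_nonneg_right hY hv0.le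
  by_cases hW : 2 * v - v ^ 2 - O + 1 / 1000 ≤ 0
  · have h5 : 0 ≤ 2 * l + (2 * l + th) * v := by positivity
    have h6 := mul_nonneg h5 (neg_nonneg.2 hW)
    have h7 : 0 ≤ 451 / 100 * l * v := by positivity
    linarith
  · push Not at hW
    have k1 : (2 * l + (2 * l + th) * v) * (2 * v - v ^ 2 - O + 1 / 1000) ≤
        (2 * l + 316 / 100 * l * v) * (2 * v - v ^ 2 - O + 1 / 1000) := by
      apply mul_le_mul_of_nonneg_right _ hW.le
      nlinarith
    have k2 : (2 * l + 316 / 100 * l * v) * (2 * v - v ^ 2 - O + 1 / 1000) ≤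
        (2 * l + 316 / 100 * l * v) * (2 * v - v ^ 2 - 289 / 1000) := by
      apply mul_le_mul_of_nonneg_left _ (by positivity)
      linarith
    have k3 : 0 ≤ 451 / 100 * v - (2 + 316 / 100 * v) * (2 * v - v ^ 2 - 289 / 1000) := by
      nlinarith [mul_nonneg hv0.le (sq_nonneg (v - 7 / 10)), sq_nonneg (v - 7 / 10), mul_nonneg hv0.le (sub_nonneg.2 hv1)]
    have k4 := mul_nonneg hl.le k3
    nlinarith

end Pool.Agent.Work.MP_f2148a_nt.M56.N2
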