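import Pool.Agent.Work.MP_f2148a_nt.M56.N2.Defs

set_option autoImplicit false

/-!
# Optimisation in `al`, `be` (helper29): from (E2), (E1) and the near-corner inequalities
to the inequality `(*)` for all bidegrees and heights, in units of `s`
-/

namespace Pool.Agent.Work.MP_f2148a_nt.M56.N2

/-- The conclusion in units of `s`. -/
def Opt (n m l h w O P : ℝ) : Prop :=
  ∃ al be : ℝ, 0 ≤ al ∧ 0 ≤ be ∧ n * al + m * be = 1 ∧
    w * (2 * (al + be * l) - 2 * h * al * be - O) ≤ P

theorem optc (n m l h : ℝ) (hn : 0 < n) (hm : 0 < m) (hh : 0 < h) (hz : 0 ≤ h + m - n * l)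
    (hb : m - n * l ≤ h) : ∃ al be : ℝ, 0 ≤ al ∧ 0 ≤ be ∧ n * al + m * be = 1 ∧
      2 * (al + be * l) - 2 * h * al * be = 2 / n * (1 - (h + m - n * l) ^ 2 / (4 * h * m)) := by
  refine ⟨(1 - m * ((h + m - n * l) / (2 * h * m))) / n, (h + m - n * l) / (2 * h * m),
    ?_, ?_, ?_, ?_⟩
  · apply div_nonneg _ hn.le
    have : m * ((h + m - n * l) / (2 * h * m)) = (h + m - n * l) / (2 * h) := by
      field_simp
    rw [this, sub_nonneg, div_le_one (by positivity)]
    linarith
  · positivity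
  · field_simp
    ring
  · field_simp
    ring

theorem opt_ab (P th l O n m h : ℝ) (hn : 0 < n) (hm : 0 < m) (hl : 0 < l) (hth : 0 ≤ th)
    (hP : 0 ≤ P) (hO : 0 ≤ O) (hh : 0 ≤ h) (hE : (th + 2 * n * l) * (2 / n - O) ≤ P)
    (hc : h + m ≤ n * l ∨ (n * l ≤ m ∧ h ≤ m - n * l)) : Opt n m l h (th + m + n * l + h) O P := by
  rcases hc with hc | ⟨hc, hc'⟩
  · refine ⟨1 / n, 0, by positivity, le_rfl, by field_simp; ring, ?_⟩
    have e : 2 * (1 / n + 0 * l) - 2 * h * (1 / n) * 0 - O = 2 / n - O := by ring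
    rw [e]
    have hw : 0 ≤ th + m + n * l + h := by positivity
    rcases le_or_gt (2 / n - O) 0 with h0 | h0
    · exact (mul_nonpos_of_nonneg_of_nonpos hw h0).trans hP
    · exact (mul_le_mul_of_nonneg_right (by linarith) h0.le).trans hE
  · refine ⟨0, 1 / m, le_rfl, by positivity, by field_simp; ring, ?_⟩
    have e : 2 * (0 + 1 / m * l) - 2 * h * 0 * (1 / m) - O = 2 * l / m - O := by ring
    rw [e]
    have hw : 0 ≤ th + m + n * l + h := by positivity
    rcases le_or_gt (2 * l / m - O) 0 with h0 | h0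
    · exact (mul_nonpos_of_nonneg_of_nonpos hw h0).trans hP
    · have h1 : (th + m + n * l + h) * (2 * l / m - O) ≤ (th + 2 * m) * (2 * l / m - O) :=
        mul_le_mul_of_nonneg_right (by linarith) h0.le
      have h2 : 2 * l / m ≤ 2 / n := by
        rw [div_le_div_iff₀ hm hn]
        nlinarith
      have h3 : (th + 2 * m) * (2 * l / m) = th * (2 * l / m) + 4 * l := by
        field_simp
        ring
      have h4 : (th + 2 * n * l) * (2 / n) = th * (2 / n) + 4 * l := by
        field_simp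
        ring
      have h5 : th * (2 * l / m) ≤ th * (2 / n) := mul_le_mul_of_nonneg_left h2 hth
      have h6 : (th + 2 * n * l) * O ≤ (th + 2 * m) * O :=
        mul_le_mul_of_nonneg_right (by nlinarith) hO
      have h7 : (th + 2 * m) * (2 * l / m - O) = (th + 2 * m) * (2 * l / m) - (th + 2 * m) * O := by
        ring
      have h8 : (th + 2 * n * l) * (2 / n - O) =
          (th + 2 * n * l) * (2 / n) - (th + 2 * n * l) * O := by ring
      linarith

/-- from (E2): all `n ≥ 2 r`, `m ≥ 1`. -/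
theorem opt_real (P th l O r n m h : ℝ) (hr0 : 0 < r) (hr : r ≤ 2) (hn : 2 * r ≤ n) (hm : 1 ≤ m)
    (hh : 0 ≤ h) (hl : 0 < l) (hth : 0 ≤ th) (hO : 1 / 2000 ≤ O) (hP : 0 ≤ P)
    (hE : E2 P (th / r) l (r * O)) : Opt n m l h (th + m + n * l + h) (O - 1 / 2000) P := by
  have hn0 : 0 < n := by linarith
  have hm0 : 0 < m := by linarith
  obtain ⟨O', hO'⟩ : ∃ O' : ℝ, O' = O - 1 / 2000 := ⟨_, rfl⟩
  rw [← hO']
  have hO0 : 0 ≤ O' := by linarith
  -- the inequality for `X ≥ n l`
  have key : ∀ X : ℝ, n * l ≤ X →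
      (th + n * l + X) * (2 / n * (1 - (X - n * l) ^ 2 / X ^ 2) - O') ≤ P := by
    intro X hX
    have hnl : 0 < n * l := by positivity
    have hX0 : 0 < X := by linarith
    have hv0 : 0 < n * l / X := by positivity
    have hv1 : n * l / X ≤ 1 := (div_le_one hX0).2 hX
    have h1 := hE (n * l / X) hv0 hv1
    obtain ⟨v, hv⟩ : ∃ v : ℝ, v = n * l / X := ⟨_, rfl⟩
    rw [← hv] at h1 hv0 hv1
    have hXv : X * v = n * l := by rw [hv]; field_simp
    have h2 : (X - n * l) ^ 2 / X ^ 2 = (1 - v) ^ 2 := by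
      rw [← hXv]; field_simp
    rw [h2]
    have hw : 0 ≤ th + n * l + X := by positivity
    rcases le_or_gt (2 / n * (1 - (1 - v) ^ 2) - O') 0 with h0 | h0
    · exact (mul_nonpos_of_nonneg_of_nonpos hw h0).trans hP
    · have hW0 : 0 < 2 * v - v ^ 2 - n / 2 * O' := by
        have : 2 * v - v ^ 2 - n / 2 * O' = n / 2 * (2 / n * (1 - (1 - v) ^ 2) - O') := by
          field_simp
          ring
        rw [this]
        positivity
      have hW1 : 2 * v - v ^ 2 - n / 2 * O' ≤ 2 * v - v ^ 2 - r * O + 1 / 1000 := by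
        have e1 : r * O' ≤ n / 2 * O' := mul_le_mul_of_nonneg_right (by linarith) hO0
        have e2 : r * O' = r * O - r / 2000 := by rw [hO']; ring
        linarith
      have hf1 : th / (n / 2) ≤ th / r := div_le_div_of_nonneg_left hth hr0 (by linarith)
      have hf2 : 2 * l + (2 * l + th / (n / 2)) * v ≤ 2 * l + (2 * l + th / r) * v := by
        have := mul_le_mul_of_nonneg_right hf1 hv0.le
        linarith
      have hf3 : 0 ≤ 2 * l + (2 * l + th / (n / 2)) * v := by positivity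
      have h3 : (2 * l + (2 * l + th / (n / 2)) * v) * (2 * v - v ^ 2 - n / 2 * O') ≤ P * v :=
        (mul_le_mul hf2 hW1 hW0.le (hf3.trans hf2)).trans h1
      have h4 : (th + n * l + X) * (2 / n * (1 - (1 - v) ^ 2) - O') * v =
          (2 * l + (2 * l + th / (n / 2)) * v) * (2 * v - v ^ 2 - n / 2 * O') := by
        have e1 : (th + n * l + X) * v = n / 2 * (2 * l + (2 * l + th / (n / 2)) * v) := by
          have : (th + n * l + X) * v = (th + n * l) * v + X * v := by ring
          rw [this, hXv]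
          field_simp
          ring
        have e2 : (th + n * l + X) * (2 / n * (1 - (1 - v) ^ 2) - O') * v =
            ((th + n * l + X) * v) * (2 / n * (1 - (1 - v) ^ 2) - O') := by ring
        rw [e2, e1]
        field_simp
        ring
      exact le_of_mul_le_mul_right (h4.le.trans h3) hv0
  have hE1 : (th + 2 * n * l) * (2 / n - O') ≤ P := by
    have := key (n * l) le_rfl
    have e : (th + n * l + n * l) * (2 / n * (1 - (n * l - n * l) ^ 2 / (n * l) ^ 2) - O') =
        (th + 2 * n * l) * (2 / n - O') := by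
      simp only [sub_self]
      ring
    rwa [e] at this
  by_cases hc : h + m ≤ n * l ∨ (n * l ≤ m ∧ h ≤ m - n * l)
  · exact opt_ab P th l O' n m h hn0 hm0 hl hth hP hO0 hh hE1 hc
  · push Not at hc
    obtain ⟨hc1, hc2⟩ := hc
    have hh0 : 0 < h := by
      rcases le_total (n * l) m with h1 | h1
      · have := hc2 h1; linarith
      · linarith
    have hb : m - n * l ≤ h := by
      rcases le_total (n * l) m with h1 | h1
      · exact (hc2 h1).le
      · linarith
    obtain ⟨al, be, h1, h2, h3, h4⟩ := optc n m l h hn0 hm0 hh0 (by linarith) hb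
    refine ⟨al, be, h1, h2, h3, ?_⟩
    rw [h4]
    have hk := key (h + m) hc1.le
    have hw : 0 ≤ th + m + n * l + h := by positivity
    have h5 : (h + m - n * l) ^ 2 / (h + m) ^ 2 ≤ (h + m - n * l) ^ 2 / (4 * h * m) :=
      div_le_div_of_nonneg_left (sq_nonneg _) (by positivity) (by nlinarith [sq_nonneg (h - m)])
    have h6 : 2 / n * (1 - (h + m - n * l) ^ 2 / (4 * h * m)) - O' ≤
        2 / n * (1 - (h + m - n * l) ^ 2 / (h + m) ^ 2) - O' := by
      have : 0 ≤ 2 / n := by positivity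
      have := mul_le_mul_of_nonneg_left (sub_le_sub_left h5 1) this
      linarith
    calc (th + m + n * l + h) * (2 / n * (1 - (h + m - n * l) ^ 2 / (4 * h * m)) - O')
        ≤ (th + m + n * l + h) * (2 / n * (1 - (h + m - n * l) ^ 2 / (h + m) ^ 2) - O') :=
          mul_le_mul_of_nonneg_left h6 hw
      _ = (th + n * l + (h + m)) * (2 / n * (1 - (h + m - n * l) ^ 2 / (h + m) ^ 2) - O') := by
          ring
      _ ≤ P := hk

/-- near the corner, `n = 2`, `m ≤ 4`. -/
theorem opt_C (Y b th l O m h z₂ : ℝ) (hm : m = 1 ∨ m = 2 ∨ m = 3 ∨ m = 4) (hh : 0 ≤ h)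
    (hl : 0 < l) (hth : 0 ≤ th) (hO : 1 / 2000 ≤ O) (hY : 0 ≤ Y) (hb : 0 ≤ b) (hz₂ : 0 < z₂)
    (hC1 : ∀ z : ℝ, 0 ≤ z → z ≤ z₂ → (th + 4 * l + z) * (1 + 1 / 1000 - O) ≤ Y * b)
    (hC2 : ∀ z : ℝ, z₂ ≤ z → (1 + 1 / 1000 - O - b / 14) * (4 * m * (z + 2 * l - m)) ≤ z ^ 2) :
    Opt 2 m l h (th + m + 2 * l + h) (O - 1 / 2000) (Y * b) ∨
      Opt 2 m l h (14 * Y) (O - 1 / 2000) (Y * b) := by
  have hm0 : 0 < m := by rcases hm with h1 | h1 | h1 | h1 <;> rw [h1] <;> norm_num
  have hP : 0 ≤ Y * b := mul_nonneg hY hb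
  have hE1 : (th + 2 * 2 * l) * (2 / 2 - (O - 1 / 2000)) ≤ Y * b := by
    have h1 := hC1 0 le_rfl hz₂.le
    have h2 : (th + 2 * 2 * l) * (2 / 2 - (O - 1 / 2000)) ≤
        (th + 4 * l + 0) * (1 + 1 / 1000 - O) := by nlinarith
    linarith
  by_cases hc : h + m ≤ 2 * l ∨ (2 * l ≤ m ∧ h ≤ m - 2 * l)
  · exact Or.inl (opt_ab (Y * b) th l (O - 1 / 2000) 2 m h two_pos hm0 hl hth hP (by linarith) hh
      hE1 hc)
  · push Not at hc
    obtain ⟨hc1, hc2⟩ := hc
    have hh0 : 0 < h := by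
      rcases le_total (2 * l) m with h1 | h1
      · have := hc2 h1; linarith
      · linarith
    have hb' : m - 2 * l ≤ h := by
      rcases le_total (2 * l) m with h1 | h1
      · exact (hc2 h1).le
      · linarith
    rcases le_total (h + m - 2 * l) z₂ with hz | hz
    · left
      refine ⟨1 / 2, 0, by norm_num, le_rfl, by norm_num, ?_⟩
      have h1 := hC1 (h + m - 2 * l) (by linarith) hz
      have h2 : 0 ≤ th + m + 2 * l + h := by positivity
      nlinarith
    · right
      obtain ⟨al, be, h1, h2, h3, h4⟩ := optc 2 m l h two_pos hm0 hh0 (by linarith) hb'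
      refine ⟨al, be, h1, h2, h3, ?_⟩
      rw [h4]
      have h5 := hC2 (h + m - 2 * l) hz
      have e : h + m - 2 * l + 2 * l - m = h := by ring
      rw [e] at h5
      have h6 : 1 + 1 / 1000 - O - b / 14 ≤ (h + m - 2 * l) ^ 2 / (4 * h * m) := by
        rw [le_div_iff₀ (by positivity)]
        have e2 : (1 + 1 / 1000 - O - b / 14) * (4 * h * m) =
            (1 + 1 / 1000 - O - b / 14) * (4 * m * h) := by ring
        rw [e2]
        exact h5
      have h7 : 2 / 2 * (1 - (h + m - 2 * l) ^ 2 / (4 * h * m)) - (O - 1 / 2000) ≤ b / 14 := by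
        linarith
      have h8 := mul_le_mul_of_nonneg_left h7 (by linarith : (0:ℝ) ≤ 14 * Y)
      linarith

/-- near the corner, `n = 2`, `m ≥ 5`. -/
theorem opt_D (P th l O m h : ℝ) (hm : 5 ≤ m) (hh : 0 ≤ h)
    (hl : 0 < l) (hth : 0 ≤ th) (hO : 1 / 2000 ≤ O) (hP : 0 ≤ P)
    (hE : (th + 4 * l) * (1 + 1 / 1000 - O) ≤ P)
    (hD1 : ∀ X : ℝ, 5 ≤ X → X ≤ 10 → 2 * l ≤ X → (th + 2 * l + X) *
      ((1 + 1 / 1000 - O) * (20 * (X - 5)) - (X - 2 * l) ^ 2) ≤ P * (20 * (X - 5)))
    (hD2 : ∀ X : ℝ, 10 ≤ X → (th + 2 * l + X) *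
      ((1 + 1 / 1000 - O) * X ^ 2 - (X - 2 * l) ^ 2) ≤ P * X ^ 2) :
    Opt 2 m l h (th + m + 2 * l + h) (O - 1 / 2000) P := by
  have hm0 : 0 < m := by linarith
  have hE1 : (th + 2 * 2 * l) * (2 / 2 - (O - 1 / 2000)) ≤ P := by
    have h2 : (th + 2 * 2 * l) * (2 / 2 - (O - 1 / 2000)) ≤
        (th + 4 * l) * (1 + 1 / 1000 - O) := by nlinarith
    linarith
  by_cases hc : h + m ≤ 2 * l ∨ (2 * l ≤ m ∧ h ≤ m - 2 * l)
  · exact opt_ab P th l (O - 1 / 2000) 2 m h two_pos hm0 hl hth hP (by linarith) hh hE1 hc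
  · push Not at hc
    obtain ⟨hc1, hc2⟩ := hc
    have hh0 : 0 < h := by
      rcases le_total (2 * l) m with h1 | h1
      · have := hc2 h1; linarith
      · linarith
    have hb' : m - 2 * l ≤ h := by
      rcases le_total (2 * l) m with h1 | h1
      · exact (hc2 h1).le
      · linarith
    obtain ⟨al, be, h1, h2, h3, h4⟩ := optc 2 m l h two_pos hm0 hh0 (by linarith) hb'
    refine ⟨al, be, h1, h2, h3, ?_⟩
    rw [h4]
    have hw : 0 < th + m + 2 * l + h := by positivity
    -- a general last step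
    have fin : ∀ T : ℝ, 0 < T → 4 * h * m ≤ T →
        (th + 2 * l + (h + m)) * ((1 + 1 / 1000 - O) * T - (h + m - 2 * l) ^ 2) ≤ P * T →
        (th + m + 2 * l + h) *
          (2 / 2 * (1 - (h + m - 2 * l) ^ 2 / (4 * h * m)) - (O - 1 / 2000)) ≤ P := by
      intro T hT hle hineq
      have h5 : (h + m - 2 * l) ^ 2 / T ≤ (h + m - 2 * l) ^ 2 / (4 * h * m) :=
        div_le_div_of_nonneg_left (sq_nonneg _) (by positivity) hle
      have h6 : 2 / 2 * (1 - (h + m - 2 * l) ^ 2 / (4 * h * m)) - (O - 1 / 2000) ≤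
          (1 + 1 / 1000 - O) - (h + m - 2 * l) ^ 2 / T := by linarith
      have h7 := mul_le_mul_of_nonneg_left h6 hw.le
      have h8 : (th + m + 2 * l + h) * ((1 + 1 / 1000 - O) - (h + m - 2 * l) ^ 2 / T) * T =
          (th + 2 * l + (h + m)) * ((1 + 1 / 1000 - O) * T - (h + m - 2 * l) ^ 2) := by
        field_simp
        ring
      have h9 : (th + m + 2 * l + h) * ((1 + 1 / 1000 - O) - (h + m - 2 * l) ^ 2 / T) ≤ P :=
        le_of_mul_le_mul_right (h8.le.trans hineq) hT
      linarith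
    rcases le_total (h + m) 10 with hX | hX
    · refine fin (20 * (h + m - 5)) (by linarith) ?_ (hD1 (h + m) (by linarith) hX (by linarith))
      nlinarith [mul_nonneg (sub_nonneg.2 hm) (by linarith : (0:ℝ) ≤ m + 5 - (h + m))]
    · refine fin ((h + m) ^ 2) (by positivity) ?_ (hD2 (h + m) hX)
      nlinarith [sq_nonneg (h - m)]

end Pool.Agent.Work.MP_f2148a_nt.M56.N2
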