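import Pool.Agent.Work.MP_f2148a_nt.M56.N2.Defs

set_option autoImplicit false

/-!
# Case Z: `yy = 0`, i.e. `3 (1 + D) ≤ u`; the window is `a = A = 4.51 l / b`, cost `t = A`

Large margin. With `z` instead of `v` (`v = 2 l / (z + 2 l)`): `O ≥ 0.6`,
`th ≤ 3.6`, `l ≥ 1.48`, and `4.51 l / (th + 4 l + z) + (z / (z + 2 l)) ^ 2 ≥ 0.45`.
`O` : from `u ≥ 3 (1 + D)`, `D ≤ 0.4484`, `A ≤ 4.51 / 4`. `l` : from `h3`.
-/

namespace Pool.Agent.Work.MP_f2148a_nt.M56.N2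

theorem caseZ (D l u A : ℝ) (hc : Cell D l u) (hA : A * (4 * l + 1 + D) = 451 / 100 * l)
    (hu : 3 * (1 + D) ≤ u) :
    E2 (451 / 100 * l) (3 * D + 1 + A) l ((5 / 6 - 3 / 10000) * u - 4 * D - A) := by
  obtain ⟨h0, h1, h2, h3, h4, hl⟩ := hc
  have hb : 0 < 4 * l + 1 + D := by linarith
  have hA0 : 0 < A := by
    by_contra hcon
    push Not at hcon
    have := mul_nonneg (neg_nonneg.2 hcon) hb.le
    nlinarith
  have hA1 : A ≤ 451 / 400 := by
    have h5 : 0 ≤ A * (1 + D) := mul_nonneg hA0.le (by linarith)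
    have h6 : A * (4 * l) ≤ 451 / 400 * (4 * l) := by nlinarith
    exact le_of_mul_le_mul_right h6 (by linarith)
  have hD : D ≤ 4484 / 10000 := by linarith
  have hl1 : 148 / 100 ≤ l := by linarith
  intro v hv0 hv1
  have hO : 6 / 10 ≤ (5 / 6 - 3 / 10000) * u - 4 * D - A := by linarith
  have hth1 : 3 * D + 1 + A ≤ 36 / 10 := by linarith
  have hth0 : 0 ≤ 3 * D + 1 + A := by linarith
  generalize hO' : (5 / 6 - 3 / 10000) * u - 4 * D - A = O at hO ⊢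
  generalize hth' : 3 * D + 1 + A = th at hth1 hth0 ⊢
  have g1 : 2 * v - v ^ 2 - O + 1 / 1000 ≤ 401 / 1000 := by nlinarith [sq_nonneg (v - 1)]
  have g2 : 2 * (2 * v - v ^ 2 - O + 1 / 1000) ≤ v := by nlinarith [sq_nonneg (v - 3 / 4)]
  have k1 : 2 * l * (2 * v - v ^ 2 - O + 1 / 1000) ≤ l * v := by
    have := mul_le_mul_of_nonneg_left g2 hl.le
    linarith
  have k2 : (2 * l + th) * v * (2 * v - v ^ 2 - O + 1 / 1000) ≤ (2 * l + th) * v * (401 / 1000) :=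
    mul_le_mul_of_nonneg_left g1 (mul_nonneg (by linarith) hv0.le)
  have k3 : (2 * l + th) * v ≤ (5 * l) * v := mul_le_mul_of_nonneg_right (by linarith) hv0.le
  have k4 : 0 ≤ l * v := mul_nonneg hl.le hv0.le
  linarith

end Pool.Agent.Work.MP_f2148a_nt.M56.N2
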