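import Mathlib

set_option autoImplicit false

/-!
# Block N2 (numerical block `H/Num` of MP_f2148a_nt, architect helper29): definitions

Everything in units of `s` : `D = d / s`, `l = q / s`, `u = 1.00001 / s`, `b = 4 l + 1 + D`,
`Y = 3 (1 + D) - u` (`= yy / s`), `P = a b / s ^ 2`, `th = (3 d + s + t) / s`, `O = om / s`.

Slack constraints of the cells (`Cell D l u`): the corner is `D = 1`, `u = 5.04`.
-/

namespace Pool.Agent.Work.MP_f2148a_nt.M56.N2

/-- inequality (E2) in the variable `v = 2 l / (z + 2 l)` :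
`P / (th + 4 l + z) + (z / (z + 2 l)) ^ 2 + O ≥ 1 + 1/1000` for all `z ≥ 0`. -/
def E2 (P th l O : ℝ) : Prop :=
  ∀ v : ℝ, 0 < v → v ≤ 1 →
    (2 * l + (2 * l + th) * v) * (2 * v - v ^ 2 - O + 1 / 1000) ≤ P * v

/-- the constraints of a cell, with slack `1 / 10000` -/
structure Cell (D l u : ℝ) : Prop where
  h0 : -(1 / 10000) ≤ D
  h1 : u ≤ 126 / 100 * (3 + D) + 1 / 10000
  h2 : 504 / 100 * D ≤ u + 1 / 10000
  h3 : 265 / 100 * u ≤ 4 * l + 2 * (1 + D) + 2 / 10000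
  h4 : 1 + D ≤ 50 / 63 * u + 1 / 10000
  hl : 0 < l

end Pool.Agent.Work.MP_f2148a_nt.M56.N2
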